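import Pool.Agent.Helper29.FN.Col
import Pool.Agent.Helper74.FN.Z3
import Pool.Agent.Helper85.FN.Z4
import Pool.Agent.Helper18.FN.Z5
import Pool.Agent.Helper53.FM.Rl.B5

set_option autoImplicit false

/-!
# FN-Z6: one world, numerical hypotheses
-/

namespace Pool.Agent.Helper74.FN.Rl96

open Finset
open Pool.Agent.Helper3.Thin (dig und off Lab GoodSet)
open Pool.Agent.Helper53.WR
open Pool.Agent.Helper48.FB (win crossF Cs Fs dens)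
open Pool.Agent.Helper74.FN
open Pool.Agent.Helper38.FMR (world_mono Vmax win_le_Vmax Vmax_le Vmax_anti)

/-- FN-Z6 (one world, numerical hypotheses; uses Z2, Z3, Z4, Z5). Adapt
Helper53/FM/Rl/B5.lean. -/
theorem world_exists4 {q : ℕ} [Fact q.Prime] (hq : 16 < q) (T O : Finset ℕ) (T' : ℕ → Finset ℕ)
    (hTT : ∀ i, T' i ⊆ T) (S S' Y H D X Nn La N1 V0 N L : ℕ) (t0 W : ℕ → ℕ) (hS : 0 < S)
    (Mod Mod4 : Finset ℕ)
    (hMod : ∀ m ∈ Mod, 0 < m ∧ Nat.Coprime q m ∧ q ^ 2 ≤ m)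
    (hTm : ∀ m ∈ Mod, ∀ t ∈ T, S + t < m)
    (hMod4 : ∀ m ∈ Mod4, 0 < m ∧ Nat.Coprime q m ∧ q ^ 4 * (2 * S + Y) ≤ N1 * m ∧
      q ^ 4 * (2 * S + Y) ≤ m * q ^ 2)
    (hTm4 : ∀ m ∈ Mod4, ∀ t ∈ T, t < m)
    (hTY : ∀ t ∈ T, t < Y) (hOS : ∀ o ∈ O, o < q ^ 4 * S')
    (hO : ∀ r, (O.filter (fun o => o % q ^ 2 = r)).card ≤ H)
    (hD : ∀ r, (O.filter (fun o => o % q ^ 4 = r)).card ≤ D)
    (hD0 : 0 < D) (hV0 : 0 < V0) (hVT : ∀ z, (win T z S).card ≤ V0)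
    (hX1 : 1 ≤ X) (hXD : X * D ≤ H) (hXV : X * V0 ≤ T.card)
    (hHN : H ≤ Nn) (hTN : S * T.card ≤ Nn) (hN0 : 0 < Nn) (hNq : 54 * Nn ^ 2 ≤ q)
    (hsum1 : ((q : ℝ) ^ 4 + ∑ m ∈ Mod, (m : ℝ)) *
      (Real.exp (-(8 * (X : ℝ))) + 3 * ((54 * (Nn : ℝ) ^ 2) / q) ^ 7) < 1 / 2)
    (hLa : 12 * La ≤ q) (hN1 : 3 * (N1 + 1) ≤ q)
    (hsum2 : (q : ℝ) ^ 3 * Real.exp (-(La : ℝ)) +
      ∑ m ∈ Mod4, (m : ℝ) * (3 * (3 * ((N1 : ℝ) + 1) / q) ^ 5) < 1 / 2)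
    (hW : ∀ n < N, ∀ z, n / q ^ 4 ≤ z + 514 + 2 * S + S' → (win T z S).card ≤ W n)
    (AX : ℕ → ℝ) (hAX : ∀ n < N, 1 ≤ AX n)
    (hX : ∀ n < N, (N : ℝ) * 4096 * (Real.exp (AX n * ((40 : ℝ) * H * W n / S)) / AX n ^ t0 n)
      < 1 / 8)
    (AM : ℕ → ℝ) (hAM : ∀ m ∈ Mod, 1 ≤ AM m) (y : ℕ → ℕ)
    (hY : ∑ m ∈ Mod, (m : ℝ) * (Real.exp (AM m *
      ((40 : ℝ) * (T.card * ((q : ℝ) ^ 2 / m + 1 / S)))) / AM m ^ y m) < 1 / 2)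
    (hL : (q : ℝ) ^ 4 * (2 * S + Y) * Real.exp (-(L : ℝ)) < 1 / 8) :
    ∃ (A : Finset ℕ) (A' : ℕ → Finset ℕ), (∀ i, A' i ⊆ A) ∧
      (∀ b ∈ A, q ^ 4 * S ≤ b ∧ b < q ^ 4 * (514 + 2 * S + Y)) ∧
      (∀ i f, (∀ n, repF (T' i) n ≤ f) → ∀ n, repF (A' i) n ≤ 4096 ^ 2 * 2592 * f) ∧
      (∀ n g, (∀ m, n / q ^ 4 ≤ m + 1028 + 4 * S → m ≤ n / q ^ 4 → repF T m ≤ g) →
        repF A n ≤ 4096 ^ 2 * 2592 * g) ∧
      (∀ n c, 9 + 8 * S ≤ n / q ^ 4 →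
        (∀ m : ℕ, n / q ^ 4 ≤ m + 4 + 4 * S → m ≤ n / q ^ 4 →
          ∃ t ∈ T, ∃ t' ∈ T, t + t' = m ∧ m ≤ c * t ∧ m ≤ c * t') →
        ∃ x ∈ A, ∃ y ∈ A, x + y = n ∧ n ≤ 2 * c * x ∧ n ≤ 2 * c * y) ∧
      (∀ i n c, 9 + 8 * S ≤ n / q ^ 4 →
        (∀ m : ℕ, n / q ^ 4 ≤ m + 4 + 4 * S → m ≤ n / q ^ 4 →
          ∃ t ∈ T' i, ∃ t' ∈ T' i, t + t' = m ∧ m ≤ c * t ∧ m ≤ c * t') →
        ∃ x ∈ A' i, ∃ y ∈ A' i, x + y = n ∧ n ≤ 2 * c * x ∧ n ≤ 2 * c * y) ∧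
      (∀ m ∈ Mod, ∀ r, (A.filter (fun b => b % m = r)).card ≤ 4096 * y m) ∧
      (∀ m ∈ Mod4, ∀ r, (A.filter (fun b => b % m = r)).card ≤ C4) ∧
      (∀ n < N, (crossF A O n).card ≤ 4096 * (t0 n * D)) ∧
      (∀ y h W, h ≤ q ^ 4 → (∀ z, y / q ^ 4 ≤ z + 514 + 2 * S → (win T z S).card ≤ W) →
        (win A y h).card * S ≤
          4096 * (2 * (3 * (64 * (h / q ^ 2 + 2 + La) * W) + L * S))) := by
  classical
  obtain ⟨Γ, hΓ, hcol⟩ := Pool.Agent.Helper29.FN.exists_goodSet_col q hq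
  have hcard : Γ.card ≤ 3 * q := by
    have := hΓ.card_le
    rwa [ZMod.card] at this
  obtain ⟨τ, hτ1, hτ2, hτ3, hτ4⟩ :=
    Pool.Agent.Helper74.FN.tau_select3 Γ hcard hΓ.diff_le hcol T O S (2 * S + Y) H D X Nn La N1
      V0 hS Mod Mod4 hMod hTm hMod4 hO hD hD0 hV0 hVT hX1 hXD hXV hHN hTN hN0 hNq hsum1 hLa hN1
      hsum2
  have hS0 : (0 : ℝ) < S := by exact_mod_cast hS
  have hX' : ∀ n < N, (N : ℝ) * 4096 * (Real.exp (AX n *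
      (((40 * H : ℕ) : ℝ) * Vmax T S (n / q ^ 4 - 514 - 2 * S - S') / S)) / AX n ^ t0 n)
        < 1 / 8 := by
    intro n hn
    refine lt_of_le_of_lt ?_ (hX n hn)
    have hV : Vmax T S (n / q ^ 4 - 514 - 2 * S - S') ≤ W n :=
      Vmax_le T S _ _ (fun z hz => hW n hn z (by omega))
    have hV' : ((Vmax T S (n / q ^ 4 - 514 - 2 * S - S') : ℕ) : ℝ) ≤ W n := by
      exact_mod_cast hV
    have hA0 : 0 ≤ AX n := by linarith [hAX n hn]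
    push_cast
    gcongr
  have hY' : ∑ m ∈ Mod, (m : ℝ) * (Real.exp (AM m *
      ((40 * (T.card * ((q : ℝ) ^ 2 * S / m + 1))) / S)) / AM m ^ y m) < 1 / 2 := by
    refine lt_of_eq_of_lt (Finset.sum_congr rfl ?_) hY
    intro m hm
    have hm0 : (0 : ℝ) < m := by exact_mod_cast (hMod m hm).1
    have : (40 * (T.card * ((q : ℝ) ^ 2 * S / m + 1))) / (S : ℝ) =
        (40 : ℝ) * (T.card * ((q : ℝ) ^ 2 / m + 1 / S)) := by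
      field_simp
    rw [this]
  obtain ⟨σ, hσ, hσ1, hσ2, hσ4⟩ := Pool.Agent.Helper85.FN.sigma_select4 Γ T O S S' hS (40 * H) N L
    Y 64 La t0 (Vmax T S) Mod (fun m hm => (hMod m hm).1) hTY hOS τ
    (fun z z' h => win_le_Vmax T S z z' h) hτ1
    (fun m => 40 * (T.card * ((q : ℝ) ^ 2 * S / m + 1))) hτ2 hτ3 AX hAX hX' AM hAM y hY' hL
  refine ⟨World Γ T S τ σ, fun i => World Γ (T' i) S τ σ, fun i => world_mono Γ (hTT i) S τ σ,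
    world_range Γ T S Y τ σ hσ hTY, ?_, ?_, ?_, ?_, ?_, ?_, ?_, ?_⟩
  · exact fun i f hf n => Helper23.WR.world_self hΓ (T' i) S f τ σ hf n
  · exact fun n g hg => Helper39.FB.world_self2 hΓ T S g τ σ hσ n hg
  · exact fun n c h1 h2 => Pool.Agent.Helper61.FM.world_cover_bal hΓ T S c τ σ hσ n h1 h2
  · exact fun i n c h1 h2 => Pool.Agent.Helper61.FM.world_cover_bal hΓ (T' i) S c τ σ hσ n h1 h2
  · intro m hm r
    exact Helper7.WR.world_residue Γ T S m (y m) (hMod m hm).1 (hMod m hm).2.1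
      (fun t ht => lt_of_le_of_lt (Nat.le_add_left t S) (hTm m hm t ht)) τ σ
      (fun r => (hσ2 m hm r).le) r
  · intro m hm r
    exact Helper7.WR.world_residue Γ T S m 4 (hMod4 m hm).1 (hMod4 m hm).2.1 (hTm4 m hm) τ σ
      (fun r => (Finset.card_le_card (by
        intro p hp
        rw [mem_filter] at hp ⊢
        obtain ⟨hp1, t, ht, hp2⟩ := hp
        have h1 := hTY t ht
        have h2 := hσ p
        exact ⟨hp1, S + σ p + t, by omega, hp2⟩)).trans (hτ4 m hm r)) r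
  · intro n hn
    exact Helper12.WR.world_cross Γ T O S D (t0 n) n τ σ hD (fun ε => (hσ1 n hn ε).le)
  · intro y h W' hh hW'
    have h1 := Pool.Agent.Helper18.FN.world_win4 Γ T S 64 La L (Vmax T S) (Vmax_anti T S) τ σ hσ
      hσ4 y h hh
    have h2 : Vmax T S (y / q ^ 4 - 514 - 2 * S) ≤ W' :=
      Vmax_le T S _ _ (fun z hz => hW' z (by omega))
    refine h1.trans ?_
    gcongr

end Pool.Agent.Helper74.FN.Rl96
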