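import Pool.Agent.Helper53.FN.Main
import Pool.Agent.Helper63.FN.Infinite
import Pool.Agent.Helper74.FN.Rl.FiniteThm

/-!
# Project FN: the final theorem
-/

set_option autoImplicit false

namespace Pool.Agent.Helper74.FN

open Finset Filter
open Pool.Agent.Helper53.WR
open Pool.Agent.Helper53.FM (BCov blockMax)

/-- The infinite theorem. -/
theorem infinite_thm4 : ∃ (A : Set ℕ) (C : ℝ), (∀ n, ∃ x ∈ A, ∃ y ∈ A, x + y = n) ∧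
    (∀ j : ℕ, 2 ≤ j → (blockMax A j : ℝ) ≤ C * (j / Real.log j)) ∧
    (∀ J : ℕ, 2 ≤ J → ∑ j ∈ range J, (blockMax A j : ℝ) ≤ J * Real.exp (C * √(Real.log J))) ∧
    ∀ ρ : ℝ, 0 ≤ ρ → ρ < 1 → ∃ A' : Set ℕ, A' ⊆ A ∧
      (∀ l n : ℕ, 2 ≤ l → n < 2 ^ l →
        (rep A' n : ℝ) ≤ (l : ℝ) ^ ρ * Real.exp (C * √(Real.log l))) ∧
      ∀ᶠ J : ℕ in atTop,
        (badCount A' J : ℝ) ≤ (J : ℝ) ^ (1 - ρ) * Real.exp (-√(Real.log J)) :=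
  Pool.Agent.Helper63.FN.infinite_of
    (fun h f g T T' B hT => Rl50.ntower h f g T T' B hT) Rl48.finite_thm4

/-- The main theorem. -/
theorem main_thm : ∃ (A : Set ℕ) (C : ℝ), (∀ n, ∃ x ∈ A, ∃ y ∈ A, x + y = n) ∧
    (∀ j : ℕ, 2 ≤ j → (blockMax A j : ℝ) ≤ C * (j / Real.log j)) ∧
    (∀ J : ℕ, 2 ≤ J → ∑ j ∈ range J, (blockMax A j : ℝ) ≤ J * Real.exp (C * √(Real.log J))) ∧
    ∀ ρ : ℝ, 0 ≤ ρ → ρ < 1 → ∃ A' : Set ℕ, A' ⊆ A ∧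
      (∀ᶠ n : ℕ in atTop, (rep A' n : ℝ) ≤
        (Real.log n) ^ ρ * Real.exp (C * √(Real.log (Real.log n)))) ∧
      ∀ᶠ J : ℕ in atTop,
        (badCount A' J : ℝ) ≤ (J : ℝ) ^ (1 - ρ) * Real.exp (-√(Real.log J)) :=
  Pool.Agent.Helper53.FN.main_of infinite_thm4

end Pool.Agent.Helper74.FN
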